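import Pool.Agent.Results.MP_dd0d16_nt.TuplesPowerSaving
import Pool.Agent.X174.WinVecV

/-!
# `p`-adic strong four exponentials for ALL primes `p` up to a power and ALL tuples of integers in cubes

There is `c > 0`, depending only on `k`, `d`, `m`, such that for every sequence `v ≥ 1` of exponent of convergence at most
`τ` (for `v_i = i ^ a` this is `1 / a`, for `v_i = b ^ i` it is `0`), `ρ < 1` and `σ ≥ 0` and for all choices, for every
prime `p`, of a number field `K_p` of degree at most `d` in the algebraic closure of `ℚ_p` and a `K_p`-subspace `V_p` of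
dimension at most `m` of it, there is ONE set `E ⊂ ℝ^k` of Hausdorff dimension at most `(k - c + 2 σ + τ) / (1 - ρ)` such
that for each `α ∈ ℝ^k` outside `E`, for all but finitely many `i`, ALL `k`-tuples of integers `n_j ≥ 1` in the cube
`|n_j - α_j v_i| ≤ v_i ^ ρ` and ALL primes `p ≤ (max n_j) ^ σ`: the `p`-adic logarithms of the `n_j` are linearly
independent modulo `V_p`, and `2 × 2` matrices over `V_p + ∑ K_p log n_j` with an entry outside `V_p` and with independent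
rows and columns are regular.

The number of exceptions is from the starting result `TuplesPowerSaving`.
-/

set_option autoImplicit false

namespace Pool.Agent.Results.MP_dd0d16_nt.AllPrimesInCubes

open Module

/-- the exponent of convergence of the sequence `v` is at most `τ` -/
def ExpLe (v : ℕ → ℝ) (τ : ℝ) : Prop := ∀ t : ℝ, τ < t → Summable (fun n : ℕ => (v n) ^ (-t))

/-- `L` is the Iwasawa `p`-adic logarithm on the algebraic closure of `ℚ_p`. -/
def IsIwasawaLog (p : ℕ) [Fact p.Prime] (L : PadicAlgCl p → PadicAlgCl p) : Prop :=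
  (∀ x y : PadicAlgCl p, x ≠ 0 → y ≠ 0 → L (x * y) = L x + L y) ∧
  L ((p : ℕ) : PadicAlgCl p) = 0 ∧
  ∀ z : PadicAlgCl p, ‖z‖ < 1 →
    HasSum (fun n : ℕ => (-1 : PadicAlgCl p) ^ n * z ^ (n + 1) / ((n : PadicAlgCl p) + 1))
      (L (1 + z))

/-- The `l i` are linearly independent modulo `V`, and every `2 × 2` matrix over `V + span l` which has an entry
outside `V`, `K`-linearly independent rows and `K`-linearly independent columns has determinant `≠ 0`. -/
def StrongFour {K A : Type} [Field K] [Field A] [Algebra K A] (V : Submodule K A) {k : ℕ} (l : Fin k → A) : Prop :=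
  finrank K (V ⊔ Submodule.span K (Set.range l) : Submodule K A) = finrank K V + k ∧
    ∀ M : Matrix (Fin 2) (Fin 2) A, (∀ i j, M i j ∈ V ⊔ Submodule.span K (Set.range l)) → (∃ i j, M i j ∉ V) →
      LinearIndependent K (fun i : Fin 2 => fun j : Fin 2 => M i j) →
      LinearIndependent K (fun j : Fin 2 => fun i : Fin 2 => M i j) → M.det ≠ 0

/-- **Theorem.** Let `k ≥ 1` and `d`, `m` be natural numbers. There is `0 < c < 1` such that for every sequence `v ≥ 1` of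
exponent of convergence at most `τ ≥ 0`, every `ρ < 1`, every `σ ≥ 0`, the Iwasawa logarithms `L_p`, all number fields
`K_p ⊂ ℚ̄_p` of degree at most `d` and all `K_p`-subspaces `V_p` of `ℚ̄_p` of dimension at most `m` (`p` runs over all
primes) there is a set `E ⊂ ℝ^k` of Hausdorff dimension at most `(k - c + 2 σ + τ) / (1 - ρ)` such that for each `α ∈ ℝ^k`
outside `E`, for all but finitely many `i`, ALL integers `n_1, …, n_k ≥ 1` with `|n_j - α_j v_i| ≤ v_i ^ ρ` for all `j` and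
ALL primes `p` which are at most `n_j ^ σ` for some `j`: `StrongFour V_p (L_p n_1, …, L_p n_k)`. The sequences
`v_i = (i + 1) ^ a` and `v_i = b ^ i` have exponent of convergence at most `1 / a` and `0`. -/
theorem result :
    (∀ k d m : ℕ, 1 ≤ k → ∃ c : ℝ, 0 < c ∧ c < 1 ∧
      ∀ (v : ℕ → ℝ) (τ ρ σ : ℝ), (∀ i, 1 ≤ v i) → 0 ≤ τ → ExpLe v τ → ρ < 1 → 0 ≤ σ →
      ∀ L : (p : ℕ) → [Fact p.Prime] → PadicAlgCl p → PadicAlgCl p,
        (∀ (p : ℕ) [Fact p.Prime], IsIwasawaLog p (L p)) →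
      ∀ K : (p : ℕ) → [Fact p.Prime] → IntermediateField ℚ (PadicAlgCl p),
        (∀ (p : ℕ) [Fact p.Prime], FiniteDimensional ℚ (K p) ∧ finrank ℚ (K p) ≤ d) →
      ∀ V : (p : ℕ) → [Fact p.Prime] → Submodule (K p) (PadicAlgCl p),
        (∀ (p : ℕ) [Fact p.Prime], Module.Finite (K p) (V p) ∧ finrank (K p) (V p) ≤ m) →
      ∃ E : Set (Fin k → ℝ), dimH E ≤ ENNReal.ofReal ((k - c + 2 * σ + τ) / (1 - ρ)) ∧
        ∀ α : Fin k → ℝ, α ∉ E → ∃ i₀ : ℕ, ∀ i : ℕ, i₀ ≤ i →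
          ∀ n : Fin k → ℕ, (∀ j, 1 ≤ n j) → (∀ j, |(n j : ℝ) - α j * v i| ≤ (v i) ^ ρ) →
            ∀ (p : ℕ) [Fact p.Prime], (∃ j, (p : ℝ) ≤ (n j : ℝ) ^ σ) →
              StrongFour (V p) (fun j => L p (n j : PadicAlgCl p))) ∧
    (∀ a : ℝ, 0 < a → ExpLe (fun n : ℕ => ((n : ℝ) + 1) ^ a) (1 / a)) ∧
    (∀ b : ℝ, 1 < b → ExpLe (fun n : ℕ => b ^ n) 0) := by
  classical
  refine ⟨fun k d m hk => ?_, fun κ hκ => Pool.Agent.Y854.GM.expLe_pow κ hκ,
    fun b hb => Pool.Agent.Y854.GM.expLe_geom b hb⟩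
  obtain ⟨c1, hc1, C, h⟩ := TuplesPowerSaving.result k d m
  set c : ℝ := min c1 (1 / 2) with hc
  have hc0 : 0 < c := lt_min hc1 (by norm_num)
  have hca : c ≤ c1 := min_le_left _ _
  have hcb : c ≤ 1 / 2 := min_le_right _ _
  have hk1 : (1 : ℝ) ≤ k := by exact_mod_cast hk
  refine ⟨c, hc0, by linarith, fun v τ ρ σ hv hτ hE hρ hσ L hL K hK V hV => ?_⟩
  obtain ⟨E, hE1, hE2⟩ := Pool.Agent.X174.winTup (κ := Fin k) (fun n : Fin k → ℕ => (∀ j, 1 ≤ n j) ∧
      ∃ (p : ℕ) (_ : Fact p.Prime), (∃ j, (p : ℝ) ≤ (n j : ℝ) ^ σ) ∧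
        ¬ StrongFour (V p) (fun j => L p (n j : PadicAlgCl p))) (s := k - c + 2 * σ) hv hτ hE
      (by linarith) hρ ⟨|C| * 2, fun T hT => by
    have hT1 : (1 : ℝ) ≤ T := by exact_mod_cast hT
    have hTp : (0 : ℝ) < T := by linarith
    have hB : ∀ p : ℕ, ∃ B : Finset (Fin k → ℕ), (B.card : ℝ) ≤ |C| * p * (T : ℝ) ^ ((k : ℝ) - c) ∧
        ∀ (_ : Fact p.Prime) (n : Fin k → ℕ), (∀ i, 1 ≤ n i ∧ n i ≤ T) → n ∉ B →
          StrongFour (V p) (fun i => L p (n i : PadicAlgCl p)) := by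
      intro p
      by_cases hp : Fact p.Prime
      · obtain ⟨B, hB1, hB2⟩ := h p (L p) (hL p) (K p) (hK p).1 (hK p).2 (V p) (hV p).1 (hV p).2 T hT
        refine ⟨B, hB1.trans ?_, fun _ n hn hnB => hB2 n hn hnB⟩
        calc C * p * (T : ℝ) ^ ((k : ℝ) - c1) ≤ |C| * p * (T : ℝ) ^ ((k : ℝ) - c1) := by
              apply mul_le_mul_of_nonneg_right _ (by positivity)
              exact mul_le_mul_of_nonneg_right (le_abs_self C) (Nat.cast_nonneg _)
          _ ≤ |C| * p * (T : ℝ) ^ ((k : ℝ) - c) := by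
              apply mul_le_mul_of_nonneg_left _ (by positivity)
              exact Real.rpow_le_rpow_of_exponent_le hT1 (by linarith)
      · exact ⟨∅, by rw [Finset.card_empty, Nat.cast_zero]; positivity, fun hp' => absurd hp' hp⟩
    choose B hB1 hB2 using hB
    set R : ℝ := (T : ℝ) ^ σ with hR
    have hR1 : 1 ≤ R := Real.one_le_rpow hT1 hσ
    have hRp : 0 < R := by linarith
    set F : Finset (Fin k → ℕ) := (Finset.range (⌊R⌋₊ + 1)).biUnion B with hF
    have hsub : {n : Fin k → ℕ | (∀ j, n j ≤ T) ∧ ((∀ j, 1 ≤ n j) ∧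
      ∃ (p : ℕ) (_ : Fact p.Prime), (∃ j, (p : ℝ) ≤ (n j : ℝ) ^ σ) ∧
        ¬ StrongFour (V p) (fun j => L p (n j : PadicAlgCl p)))} ⊆ (F : Set (Fin k → ℕ)) := by
      rintro n ⟨h1, h2, p, hp, ⟨j, hj⟩, h3⟩
      rw [Finset.mem_coe, hF, Finset.mem_biUnion]
      refine ⟨p, ?_, ?_⟩
      · rw [Finset.mem_range, Nat.lt_succ_iff]
        apply Nat.le_floor
        refine hj.trans ?_
        exact Real.rpow_le_rpow (Nat.cast_nonneg _) (by exact_mod_cast h1 j) hσ
      · by_contra hnB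
        exact h3 (hB2 p hp n (fun i => ⟨h2 i, h1 i⟩) hnB)
    have h4 := Set.ncard_le_ncard hsub (Finset.finite_toSet _)
    rw [Set.ncard_coe_finset] at h4
    have h5 : (F.card : ℝ) ≤ ∑ p ∈ Finset.range (⌊R⌋₊ + 1), ((B p).card : ℝ) := by
      exact_mod_cast Finset.card_biUnion_le
    have h6 : ∀ p ∈ Finset.range (⌊R⌋₊ + 1), ((B p).card : ℝ) ≤ |C| * R * (T : ℝ) ^ ((k : ℝ) - c) := by
      intro p hp
      rw [Finset.mem_range, Nat.lt_succ_iff] at hp
      have hpR : (p : ℝ) ≤ R := (Nat.le_floor_iff hRp.le).1 hp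
      refine (hB1 p).trans ?_
      apply mul_le_mul_of_nonneg_right _ (by positivity)
      exact mul_le_mul_of_nonneg_left hpR (abs_nonneg C)
    have h7 : ((⌊R⌋₊ + 1 : ℕ) : ℝ) ≤ 2 * R := by
      have := Nat.floor_le hRp.le
      push_cast
      linarith
    calc ({n : Fin k → ℕ | (∀ j, n j ≤ T) ∧ ((∀ j, 1 ≤ n j) ∧
      ∃ (p : ℕ) (_ : Fact p.Prime), (∃ j, (p : ℝ) ≤ (n j : ℝ) ^ σ) ∧
        ¬ StrongFour (V p) (fun j => L p (n j : PadicAlgCl p)))}.ncard : ℝ) ≤ (F.card : ℝ) := by exact_mod_cast h4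
      _ ≤ ∑ p ∈ Finset.range (⌊R⌋₊ + 1), ((B p).card : ℝ) := h5
      _ ≤ ∑ _p ∈ Finset.range (⌊R⌋₊ + 1), |C| * R * (T : ℝ) ^ ((k : ℝ) - c) := Finset.sum_le_sum h6
      _ = ((⌊R⌋₊ + 1 : ℕ) : ℝ) * (|C| * R * (T : ℝ) ^ ((k : ℝ) - c)) := by
          rw [Finset.sum_const, Finset.card_range, nsmul_eq_mul]
      _ ≤ (2 * R) * (|C| * R * (T : ℝ) ^ ((k : ℝ) - c)) :=
          mul_le_mul_of_nonneg_right h7 (by positivity)
      _ = |C| * 2 * (R * R * (T : ℝ) ^ ((k : ℝ) - c)) := by ring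
      _ = |C| * 2 * (T : ℝ) ^ ((k : ℝ) - c + 2 * σ) := by
          rw [hR, ← Real.rpow_add hTp, ← Real.rpow_add hTp]
          congr 2
          ring⟩
  refine ⟨E, hE1, fun α hα => ?_⟩
  obtain ⟨i₀, hi⟩ := hE2 α hα
  refine ⟨i₀, fun i hi1 n hn hw p hp hj => ?_⟩
  by_contra hcon
  exact hi i hi1 n hw ⟨hn, p, hp, hj, hcon⟩

end Pool.Agent.Results.MP_dd0d16_nt.AllPrimesInCubes
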