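import Pool.Agent.X119.MilSp
import Pool.Agent.X119.MilGood
import Pool.Agent.X119.MilPr
import Pool.Agent.Y921.PX.Fin

/-!
# `p`-adic strong four exponentials for the primes of Mills-type sequences

For all `m`, `D` there is `c₀` such that for all real `c ≥ c₀` and all sequences of primes `p_i`, of number fields `K_i` of
degree at most `D` in the algebraic closure of `ℚ_{p_i}` and of `K_i`-spaces `V_i` of dimension at most `m` the following
holds for a set of numbers `θ` of Hausdorff dimension `1`: the numbers `a_n = ⌊θ ^ (c ^ n)⌋` are prime for all large `n`, and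
for each `i` there is `N` such that for any `m` distinct `k_1, …, k_m ≥ N` the `p_i`-adic logarithms of `a_{k_1}, …, a_{k_m}`
are linearly independent modulo `V_i` and every matrix of size `2` with entries in the sum of `V_i` and of the `K_i`-span of
these logarithms, not all in `V_i`, with `K_i`-linearly independent rows and columns is nonsingular.

The sequence may contain all primes `p`, all number fields of degree at most `D` and all the spaces generated by at most `m`
elements of the space `𝓛̃` of the problem.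

Proof. The theorem `Pool.Agent.Y921.PX.tuples_good` of the library bounds the number of the integers `y ≤ T` for which the
assertion fails for one logarithm and a given space, by `C p T ^ (1 - γ)`. Here the space may contain the logarithms of
earlier terms of the sequence; the theorem on Mills-type sequences in which the property of the new term may depend on all
the earlier terms (`Pool.Agent.X119.Mil.mills_hist`) gives the result.
-/

set_option autoImplicit false

namespace Pool.Agent.Results.MP_dd0d16_nt.MillsPrimes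

open Module

/-- `L` is the Iwasawa `p`-adic logarithm on the algebraic closure of `ℚ_p`. -/
def IsIwasawaLog (p : ℕ) [Fact p.Prime] (L : PadicAlgCl p → PadicAlgCl p) : Prop :=
  (∀ x y : PadicAlgCl p, x ≠ 0 → y ≠ 0 → L (x * y) = L x + L y) ∧
  L ((p : ℕ) : PadicAlgCl p) = 0 ∧
  ∀ z : PadicAlgCl p, ‖z‖ < 1 →
    HasSum (fun n : ℕ => (-1 : PadicAlgCl p) ^ n * z ^ (n + 1) / ((n : PadicAlgCl p) + 1))
      (L (1 + z))

/-- The `l i` are linearly independent modulo `V`, and every `2 × 2` matrix over `V + span l` which has an entry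
outside `V`, `K`-linearly independent rows and `K`-linearly independent columns has determinant `≠ 0`. -/
def StrongFour {K A : Type} [Field K] [Field A] [Algebra K A] (V : Submodule K A) {k : ℕ} (l : Fin k → A) : Prop :=
  finrank K (V ⊔ Submodule.span K (Set.range l) : Submodule K A) = finrank K V + k ∧
    ∀ M : Matrix (Fin 2) (Fin 2) A, (∀ i j, M i j ∈ V ⊔ Submodule.span K (Set.range l)) → (∃ i j, M i j ∉ V) →
      LinearIndependent K (fun i : Fin 2 => fun j : Fin 2 => M i j) →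
      LinearIndependent K (fun j : Fin 2 => fun i : Fin 2 => M i j) → M.det ≠ 0

/-- **Main result.** -/
theorem result (m D : ℕ) : ∃ c₀ : ℝ, ∀ c : ℝ, c₀ ≤ c → ∀ (p : ℕ → ℕ) [∀ i, Fact (p i).Prime]
    (L : ∀ i, PadicAlgCl (p i) → PadicAlgCl (p i)), (∀ i, IsIwasawaLog (p i) (L i)) →
    ∀ K : ∀ i, IntermediateField ℚ (PadicAlgCl (p i)), (∀ i, FiniteDimensional ℚ (K i) ∧ finrank ℚ (K i) ≤ D) →
    ∀ V : ∀ i, Submodule (K i) (PadicAlgCl (p i)), (∀ i, Module.Finite (K i) (V i) ∧ finrank (K i) (V i) ≤ m) →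
    ∀ U : Set ℝ, IsOpen U → (U ∩ Set.Ioi 1).Nonempty →
    dimH {θ : ℝ | θ ∈ U ∧ 1 < θ ∧ (∃ N₀ : ℕ, ∀ n : ℕ, N₀ ≤ n → Nat.Prime ⌊θ ^ (c ^ n)⌋₊) ∧
      ∀ i : ℕ, ∃ N : ℕ, ∀ k : Fin m → ℕ, Function.Injective k → (∀ j, N ≤ k j) →
        StrongFour (V i) (fun j => L i ((⌊θ ^ (c ^ k j)⌋₊ : ℕ) : PadicAlgCl (p i)))} = 1 := by
  classical
  obtain ⟨c₁, hc₁, hprimes⟩ := Pool.Agent.X119.Mil.primes_mills
  obtain ⟨γ₀, hγ₀, C, hC, htup⟩ := Pool.Agent.Y921.PX.tuples_good 1 D (m + m)
  set γ : ℝ := min γ₀ (1 / 2) with hγ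
  have hγ0 : 0 < γ := lt_min hγ₀ (by norm_num)
  have hγ1 : γ ≤ 1 / 2 := min_le_right _ _
  refine ⟨max c₁ (2 / γ), fun c hc p _ L hL K hK V hV U hU hne => ?_⟩
  have hcc : c₁ ≤ c := (le_max_left _ _).trans hc
  have hcγ : 1 < c * γ := by
    have h1 : 2 / γ ≤ c := (le_max_right _ _).trans hc
    rw [div_le_iff₀ hγ0] at h1
    linarith
  -- the bad relation
  obtain ⟨R, hR⟩ : ∃ R : ℕ → Finset ℕ → ℕ → Prop, R = fun (i : ℕ) (S' : Finset ℕ) (y : ℕ) =>
      ¬ Pool.Agent.Y921.FE.Good (V i ⊔ Submodule.span (K i) ((fun s : ℕ => L i (s : PadicAlgCl (p i))) '' (S' : Set ℕ)))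
        (fun _ : Fin 1 => L i (y : PadicAlgCl (p i))) := ⟨_, rfl⟩
  have key := Pool.Agent.X119.Mil.mills_sparse c γ (by linarith) hcγ m Nat.Prime R (hprimes c hcc) (by
    intro i
    refine ⟨C * p i * 2, 1, by positivity, fun X hX S' hS' T hT => ?_⟩
    have h2X : (1 : ℝ) ≤ 2 * X := by linarith
    set t : ℕ := ⌊2 * X⌋₊ with ht
    have ht1 : 1 ≤ t := Nat.le_floor (by push_cast; linarith)
    have htX : (t : ℝ) ≤ 2 * X := Nat.floor_le (by linarith)
    have ht1' : (1 : ℝ) ≤ t := by exact_mod_cast ht1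
    have hVf := (hV i).1
    have hWfin : Module.Finite (K i)
        (Submodule.span (K i) ((fun s : ℕ => L i (s : PadicAlgCl (p i))) '' (S' : Set ℕ))) :=
      Module.Finite.span_of_finite _ ((Finset.finite_toSet S').image _)
    have hWdim : finrank (K i) (Submodule.span (K i) ((fun s : ℕ => L i (s : PadicAlgCl (p i))) '' (S' : Set ℕ))) ≤ m := by
      have e1 : ((fun s : ℕ => L i (s : PadicAlgCl (p i))) '' (S' : Set ℕ)) =
          ((S'.image fun s : ℕ => L i (s : PadicAlgCl (p i)) : Finset (PadicAlgCl (p i))) : Set (PadicAlgCl (p i))) := by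
        rw [Finset.coe_image]
      rw [e1]
      exact (finrank_span_finset_le_card _).trans (Finset.card_image_le.trans hS')
    obtain ⟨B, hB1, hB2⟩ := htup (p i) (PadicAlgCl (p i)) (L i) ⟨(hL i).1, (hL i).2.1, (hL i).2.2⟩ (K i) (hK i).1
      (hK i).2 (V i ⊔ Submodule.span (K i) ((fun s : ℕ => L i (s : PadicAlgCl (p i))) '' (S' : Set ℕ)))
      inferInstance ((Submodule.finrank_add_le_finrank_add_finrank _ _).trans (Nat.add_le_add (hV i).2 hWdim)) t ht1
    have h1 : T.card ≤ B.card := by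
      refine Finset.card_le_card_of_injOn (fun y => fun _ : Fin 1 => y) (fun y hy => ?_) (fun a _ b _ hab => ?_)
      · obtain ⟨g1, g2, g3, g4⟩ := hT y hy
        by_contra hcon
        rw [hR] at g4
        apply g4
        exact hB2 (fun _ => y) (fun _ => ⟨g1.one_lt.le, Nat.le_floor g3⟩) hcon
      · exact congrFun hab 0
    have h2 : (t : ℝ) ^ (((1 : ℕ) : ℝ) - γ₀) ≤ 2 * X ^ (1 - γ) := by
      have e1 : (t : ℝ) ^ (((1 : ℕ) : ℝ) - γ₀) ≤ (t : ℝ) ^ (1 - γ) :=
        Real.rpow_le_rpow_of_exponent_le ht1' (by push_cast; linarith [min_le_left γ₀ (1 / 2)])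
      have e2 : (t : ℝ) ^ (1 - γ) ≤ (2 * X) ^ (1 - γ) := Real.rpow_le_rpow (by positivity) htX (by linarith)
      have e3 : (2 * X) ^ (1 - γ) = 2 ^ (1 - γ) * X ^ (1 - γ) := Real.mul_rpow (by norm_num) (by linarith)
      have e4 : (2 : ℝ) ^ (1 - γ) ≤ 2 := by
        have := Real.rpow_le_rpow_of_exponent_le (by norm_num : (1 : ℝ) ≤ 2) (by linarith : 1 - γ ≤ 1)
        simpa using this
      have e5 : 0 ≤ X ^ (1 - γ) := by positivity
      nlinarith
    have h3 : (T.card : ℝ) ≤ B.card := by exact_mod_cast h1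
    have h4 : 0 ≤ C * (p i : ℝ) := by positivity
    calc (T.card : ℝ) ≤ C * p i * (t : ℝ) ^ (((1 : ℕ) : ℝ) - γ₀) := h3.trans hB1
      _ ≤ C * p i * (2 * X ^ (1 - γ)) := mul_le_mul_of_nonneg_left h2 h4
      _ = C * p i * 2 * X ^ (1 - γ) := by ring) U hU hne
  apply le_antisymm
  · refine (dimH_mono (Set.subset_univ _)).trans ?_
    rw [Real.dimH_univ]
  · rw [← key]
    apply dimH_mono
    rintro θ ⟨h1, h2, N₀, h3, h4⟩
    refine ⟨h1, h2, ⟨N₀, h3⟩, fun i => ?_⟩
    obtain ⟨N, hN, h5⟩ := h4 i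
    refine ⟨N, fun k hk hkN => ?_⟩
    have h6 := Pool.Agent.X119.MilTr.good_finset (V i) (fun n => L i ((⌊θ ^ (c ^ n)⌋₊ : ℕ) : PadicAlgCl (p i))) N m (by
      intro n hn s hs hsm
      have h7 := h5 n hn (s.image fun k => ⌊θ ^ (c ^ k)⌋₊) (Finset.image_subset_image fun k hk =>
        Finset.mem_Ico.2 ⟨hN.trans (hs k hk).1, (hs k hk).2⟩) (Finset.card_image_le.trans hsm)
      have h8 : Pool.Agent.Y921.FE.Good (V i ⊔ Submodule.span (K i) ((fun s : ℕ => L i (s : PadicAlgCl (p i))) ''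
          ((s.image fun k => ⌊θ ^ (c ^ k)⌋₊ : Finset ℕ) : Set ℕ)))
          (fun _ : Fin 1 => L i ((⌊θ ^ (c ^ n)⌋₊ : ℕ) : PadicAlgCl (p i))) := by
        rw [hR] at h7
        exact not_not.1 h7
      rw [Finset.coe_image, Set.image_image] at h8
      exact h8) (Finset.univ.image k) (by
        intro n hn
        rw [Finset.mem_image] at hn
        obtain ⟨j, -, rfl⟩ := hn
        exact hkN j) (Finset.card_image_le.trans (by rw [Finset.card_univ, Fintype.card_fin]))
    obtain ⟨e, he⟩ : ∃ e : Fin m ≃ (Finset.univ.image k : Finset ℕ), ∀ j, ((e j : (Finset.univ.image k : Finset ℕ)) : ℕ) = k j :=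
      ⟨Equiv.ofBijective (fun j => ⟨k j, Finset.mem_image_of_mem k (Finset.mem_univ j)⟩) ⟨fun a b hab => hk
        (congrArg Subtype.val hab), fun ⟨n, hn⟩ => by
          rw [Finset.mem_image] at hn
          obtain ⟨j, -, rfl⟩ := hn
          exact ⟨j, rfl⟩⟩, fun j => rfl⟩
    have h8 := Pool.Agent.X119.MilTr.good_equiv e h6
    have e' : ((fun i' : (Finset.univ.image k : Finset ℕ) => L i ((⌊θ ^ (c ^ (i' : ℕ))⌋₊ : ℕ) : PadicAlgCl (p i))) ∘ e) =
        fun j => L i ((⌊θ ^ (c ^ k j)⌋₊ : ℕ) : PadicAlgCl (p i)) := by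
      funext j
      rw [Function.comp_apply, he]
    rw [e'] at h8
    exact ⟨by simpa using h8.1, fun M hM hne hrow hcol => h8.det_ne_zero M hM hne hrow hcol⟩

end Pool.Agent.Results.MP_dd0d16_nt.MillsPrimes
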