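import Pool.Agent.X148.TR.Padic

/-!
# `p`-adic strong four exponentials: one orbit of counterexamples for each ratio

Let `𝓛` be the space of the linear combinations, with algebraic coefficients, of `1` and of values of
the Iwasawa logarithm at algebraic numbers. The conjecture says that there is no singular `2 × 2`
matrix with entries in `𝓛` and with rows and columns linearly independent over the algebraic
numbers. For such a counterexample `M` the ratio `u = M 0 1 / M 0 0` of the columns is
transcendental. We prove that a counterexample is determined by its ratio, up to row and column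
operations with algebraic coefficients: if the ratios of two counterexamples are related by a
fractional linear transformation with algebraic coefficients then `M' = A M B` with invertible
matrices `A`, `B` of algebraic numbers.
-/

set_option autoImplicit false

namespace Pool.Agent.Results.MP_dd0d16_nt.OneOrbitPerRatio

open Module

/-- `L` is the Iwasawa `p`-adic logarithm on the algebraic closure of `ℚ_p`. -/
def IsIwasawaLog (p : ℕ) [Fact p.Prime] (L : PadicAlgCl p → PadicAlgCl p) : Prop :=
  (∀ x y : PadicAlgCl p, x ≠ 0 → y ≠ 0 → L (x * y) = L x + L y) ∧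
  L ((p : ℕ) : PadicAlgCl p) = 0 ∧
  ∀ z : PadicAlgCl p, ‖z‖ < 1 →
    HasSum (fun n : ℕ => (-1 : PadicAlgCl p) ^ n * z ^ (n + 1) / ((n : PadicAlgCl p) + 1))
      (L (1 + z))

/-- The algebraic numbers in the algebraic closure of `ℚ_p`. -/
noncomputable abbrev Qb (p : ℕ) [Fact p.Prime] : IntermediateField ℚ (PadicAlgCl p) :=
  algebraicClosure ℚ (PadicAlgCl p)

/-- The linear combinations with algebraic coefficients of `1` and of the values of `L` at nonzero
algebraic numbers. -/
noncomputable def LogForms (p : ℕ) [Fact p.Prime] (L : PadicAlgCl p → PadicAlgCl p) :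
    Submodule (Qb p) (PadicAlgCl p) :=
  Submodule.span (Qb p) ({1} ∪ {z | ∃ α : PadicAlgCl p, α ≠ 0 ∧ IsAlgebraic ℚ α ∧ z = L α})

/-- `M` is a counterexample to the `p`-adic strong four exponentials conjecture. -/
def Counterexample (p : ℕ) [Fact p.Prime] (L : PadicAlgCl p → PadicAlgCl p)
    (M : Matrix (Fin 2) (Fin 2) (PadicAlgCl p)) : Prop :=
  (∀ i j, M i j ∈ LogForms p L) ∧
  LinearIndependent (Qb p) (fun i : Fin 2 => fun j : Fin 2 => M i j) ∧
  LinearIndependent (Qb p) (fun j : Fin 2 => fun i : Fin 2 => M i j) ∧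
  M.det = 0

/-- the ratio of the columns -/
noncomputable def ratio {p : ℕ} [Fact p.Prime] (M : Matrix (Fin 2) (Fin 2) (PadicAlgCl p)) :
    PadicAlgCl p := M 0 1 / M 0 0

/-- **Main result.** (1) The ratio of a counterexample is transcendental and is the ratio in both
rows; (2) for each ratio, up to fractional linear transformations with algebraic coefficients, there is at most
one counterexample up to row and column operations over the algebraic numbers. -/
theorem result (p : ℕ) [Fact p.Prime] (L : PadicAlgCl p → PadicAlgCl p) (hL : IsIwasawaLog p L) :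
    (∀ M, Counterexample p L M → Transcendental ℚ (ratio M) ∧ M 0 0 ≠ 0 ∧
      ∀ i, M i 1 = ratio M * M i 0) ∧
    (∀ M M', Counterexample p L M → Counterexample p L M' → ratio M' = ratio M →
      ∃ A : Matrix (Fin 2) (Fin 2) (Qb p), A.det ≠ 0 ∧
        M' = A.map (algebraMap (Qb p) (PadicAlgCl p)) * M) ∧
    (∀ M M', Counterexample p L M → Counterexample p L M' → ∀ a b c d : Qb p,
      a * d - b * c ≠ 0 →
      ratio M' * ((c : PadicAlgCl p) + d * ratio M) = (a : PadicAlgCl p) + b * ratio M →
      ∃ A B : Matrix (Fin 2) (Fin 2) (Qb p), A.det ≠ 0 ∧ B.det ≠ 0 ∧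
        M' = A.map (algebraMap (Qb p) (PadicAlgCl p)) * M *
          B.map (algebraMap (Qb p) (PadicAlgCl p))) := by
  have hL' : Pool.Agent.W245.PB.IsIwasawaLog p L := ⟨hL.1, hL.2.1, hL.2.2⟩
  have hV : Pool.Agent.X148.TR.Two (LogForms p L) :=
    Pool.Agent.X148.TR.Two.of_hyp (Pool.Agent.W254.PA.hyp_padic hL')
  have hc : ∀ {M}, Counterexample p L M → Pool.Agent.X148.TR.Bad (LogForms p L) M := fun h => h
  refine ⟨fun M hM => ?_, fun M M' hM hM' hr => ?_, fun M M' hM hM' a b c d hdet hr =>
    Pool.Agent.X148.TR.one_orbit hV (hc hM) (hc hM') a b c d hdet hr⟩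
  · obtain ⟨h1, h2, h3⟩ := Pool.Agent.X148.TR.Bad.ratio (hc hM)
    refine ⟨fun halg => ?_, h1, h2⟩
    rw [LinearIndependent.pair_iff] at h3
    have h4 := h3 (-⟨ratio M, mem_algebraicClosure_iff.mpr halg⟩) 1 (by
      rw [Algebra.smul_def, one_smul, mul_one, map_neg]
      exact neg_add_cancel _)
    exact one_ne_zero h4.2
  · obtain ⟨h1, h2, h3⟩ := Pool.Agent.X148.TR.Bad.ratio (hc hM)
    obtain ⟨h1', h2', h3'⟩ := Pool.Agent.X148.TR.Bad.ratio (hc hM')
    have hr' : M' 0 1 / M' 0 0 = M 0 1 / M 0 0 := hr
    obtain ⟨A, hA, hAx⟩ := Pool.Agent.X148.TR.same_ratio hV h3 (x := fun i : Fin 2 => M i 0)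
      (y := fun i : Fin 2 => M' i 0) (fun i => hM.1 i 0)
      (fun i => by rw [← h2 i]; exact hM.1 i 1) (fun i => hM'.1 i 0)
      (fun i => by rw [← hr', ← h2' i]; exact hM'.1 i 1)
      (Pool.Agent.X148.TR.col_indep (x := fun i : Fin 2 => M i 0) (c := 1)
        (fun i => by rw [one_mul]) (fun i => h2 i) hM.2.1)
      (Pool.Agent.X148.TR.col_indep (x := fun i : Fin 2 => M' i 0) (c := 1)
        (fun i => by rw [one_mul]) (fun i => h2' i) hM'.2.1)
    refine ⟨A, hA, ?_⟩
    have hAx' : ∀ i, M' i 0 = algebraMap (Qb p) (PadicAlgCl p) (A i 0) * M 0 0 +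
        algebraMap (Qb p) (PadicAlgCl p) (A i 1) * M 1 0 := by
      intro i
      rw [hAx i, Fin.sum_univ_two, Algebra.smul_def, Algebra.smul_def]
    ext i j
    rw [Matrix.mul_apply, Fin.sum_univ_two]
    simp only [Matrix.map_apply]
    fin_cases j
    · exact hAx' i
    · show M' i 1 = algebraMap (Qb p) (PadicAlgCl p) (A i 0) * M 0 1 +
        algebraMap (Qb p) (PadicAlgCl p) (A i 1) * M 1 1
      have e0 := h2 0
      have e1 := h2 1
      rw [h2' i, hr', hAx' i]
      generalize M 0 1 / M 0 0 = u at e0 e1 ⊢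
      rw [e0, e1]
      ring

end Pool.Agent.Results.MP_dd0d16_nt.OneOrbitPerRatio
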