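import Pool.Agent.X148.TR.Padic

/-!
# `p`-adic logarithms together with finitely many unknown constants

Let `𝓛` be the space of the linear combinations, with algebraic coefficients, of `1` and of values of
the Iwasawa logarithm at algebraic numbers, and `Γ` an arbitrary space of finite dimension `g` over the
algebraic numbers. The `p`-adic strong four exponentials conjecture says that for transcendental `u`
the space of the `w ∈ 𝓛` with `u w ∈ 𝓛` has dimension at most one. We prove bounds for the space of the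
`w ∈ 𝓛 + Γ` with `u w ∈ 𝓛 + Γ`, for several multipliers, and for the polynomials `P` with
`v P(u) ∈ 𝓛 + Γ`.
-/

set_option autoImplicit false

namespace Pool.Agent.Results.MP_dd0d16_nt.UnknownConstants

open Module

/-- `L` is the Iwasawa `p`-adic logarithm on the algebraic closure of `ℚ_p`. -/
def IsIwasawaLog (p : ℕ) [Fact p.Prime] (L : PadicAlgCl p → PadicAlgCl p) : Prop :=
  (∀ x y : PadicAlgCl p, x ≠ 0 → y ≠ 0 → L (x * y) = L x + L y) ∧
  L ((p : ℕ) : PadicAlgCl p) = 0 ∧
  ∀ z : PadicAlgCl p, ‖z‖ < 1 →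
    HasSum (fun n : ℕ => (-1 : PadicAlgCl p) ^ n * z ^ (n + 1) / ((n : PadicAlgCl p) + 1))
      (L (1 + z))

/-- The algebraic numbers in the algebraic closure of `ℚ_p`. -/
noncomputable abbrev Qb (p : ℕ) [Fact p.Prime] : IntermediateField ℚ (PadicAlgCl p) :=
  algebraicClosure ℚ (PadicAlgCl p)

/-- The linear combinations with algebraic coefficients of `1` and of the values of `L` at nonzero
algebraic numbers. -/
noncomputable def LogForms (p : ℕ) [Fact p.Prime] (L : PadicAlgCl p → PadicAlgCl p) :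
    Submodule (Qb p) (PadicAlgCl p) :=
  Submodule.span (Qb p) ({1} ∪ {z | ∃ α : PadicAlgCl p, α ≠ 0 ∧ IsAlgebraic ℚ α ∧ z = L α})

section

variable {k E : Type} [Field k] [Field E] [Algebra k E]

/-- (1) one transcendental multiplier -/
def OneMultiplier (F : Submodule k E) (g : ℕ) : Prop :=
  ∀ u : E, Transcendental k u → ∀ W : Submodule k E, (∀ w ∈ W, w ∈ F ∧ u * w ∈ F) →
    FiniteDimensional k W ∧ finrank k W ≤ 2 * g + 2

/-- (2) three or more independent multipliers -/
def ManyMultipliers (F : Submodule k E) (g : ℕ) : Prop :=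
  ∀ (d : ℕ) (x : Fin d → E), 3 ≤ d → LinearIndependent k x →
    ∀ W : Submodule k E, (∀ w ∈ W, ∀ i, x i * w ∈ F) →
    FiniteDimensional k W ∧ finrank k W ≤ d * g + 1

/-- (3) polynomials in a transcendental number, times a nonzero factor -/
def PolynomialBound (F : Submodule k E) (g : ℕ) : Prop :=
  ∀ u v : E, Transcendental k u → v ≠ 0 → ∀ (D : ℕ) (W : Submodule k (Polynomial k)),
    (∀ P ∈ W, P.natDegree ≤ D ∧ v * Polynomial.aeval u P ∈ F) →
    (finrank k W : ℝ) ≤ 2 * Real.sqrt D + 1 + g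

/-- (4) powers of a transcendental number, times a nonzero factor -/
def PowerBound (F : Submodule k E) (g : ℕ) : Prop :=
  ∀ u v : E, Transcendental k u → v ≠ 0 → ∀ N : ℕ,
    (Set.ncard {n : ℕ | n ≤ N ∧ v * u ^ n ∈ F} : ℝ) ≤ 2 * Real.sqrt N + 1 + g

end

/-- **Main result.** `Γ` is an arbitrary space of finite dimension over the algebraic numbers. -/
theorem result (p : ℕ) [Fact p.Prime] (L : PadicAlgCl p → PadicAlgCl p) (hL : IsIwasawaLog p L)
    (Γ : Submodule (Qb p) (PadicAlgCl p)) [FiniteDimensional (Qb p) Γ] :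
    OneMultiplier (LogForms p L ⊔ Γ) (finrank (Qb p) Γ) ∧
    ManyMultipliers (LogForms p L ⊔ Γ) (finrank (Qb p) Γ) ∧
    PolynomialBound (LogForms p L ⊔ Γ) (finrank (Qb p) Γ) ∧
    PowerBound (LogForms p L ⊔ Γ) (finrank (Qb p) Γ) := by
  have hL' : Pool.Agent.W245.PB.IsIwasawaLog p L := ⟨hL.1, hL.2.1, hL.2.2⟩
  have hV : Pool.Agent.W254.PA.Hyp (LogForms p L) := Pool.Agent.W254.PA.hyp_padic hL'
  have hpoly : ∀ u v : PadicAlgCl p, Transcendental (Qb p) u → v ≠ 0 → ∀ (D : ℕ),
      (finrank (Qb p) (Pool.Agent.X148.TR.PolyIn (LogForms p L ⊔ Γ) v u D) : ℝ) ≤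
        2 * Real.sqrt D + 1 + finrank (Qb p) Γ := fun u v hu hv D =>
    Pool.Agent.X148.TR.polyE_bound hV Γ hv hu D
  refine ⟨fun u hu W hW => ?_, fun d x hd hx W hW => ?_, fun u v hu hv D W hW => ?_,
    fun u v hu hv N => ?_⟩
  · obtain ⟨h1, h2⟩ := Pool.Agent.X148.TR.finrank_MultE hV Γ le_rfl
      (Pool.Agent.X148.TR.pairE_indep hu)
    rw [if_pos rfl] at h2
    have h3 : W ≤ Pool.Agent.X148.TR.MultE ![1, u] (LogForms p L ⊔ Γ) := by
      intro w hw i
      fin_cases i
      · show 1 * w ∈ _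
        rw [one_mul]
        exact (hW w hw).1
      · exact (hW w hw).2
    exact ⟨Submodule.finiteDimensional_of_le h3, (Submodule.finrank_mono h3).trans h2⟩
  · obtain ⟨h1, h2⟩ := Pool.Agent.X148.TR.finrank_MultE hV Γ (by omega) hx
    rw [if_neg (by omega)] at h2
    have h3 : W ≤ Pool.Agent.X148.TR.MultE x (LogForms p L ⊔ Γ) := fun w hw i => hW w hw i
    exact ⟨Submodule.finiteDimensional_of_le h3, (Submodule.finrank_mono h3).trans h2⟩
  · have h3 : W ≤ Pool.Agent.X148.TR.PolyIn (LogForms p L ⊔ Γ) v u D := by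
      intro P hP
      rw [Pool.Agent.X148.TR.mem_PolyIn]
      refine ⟨(hW P hP).2, ?_⟩
      by_cases h0 : P = 0
      · subst h0
        rw [Polynomial.degree_zero]
        exact WithBot.bot_lt_coe _
      · rw [Polynomial.degree_eq_natDegree h0]
        exact_mod_cast Nat.lt_succ_of_le (hW P hP).1
    have hfin : FiniteDimensional (Qb p)
        (Pool.Agent.X148.TR.PolyIn (LogForms p L ⊔ Γ) v u D) :=
      Submodule.finiteDimensional_of_le inf_le_right
    have h4 : (finrank (Qb p) W : ℝ) ≤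
        finrank (Qb p) (Pool.Agent.X148.TR.PolyIn (LogForms p L ⊔ Γ) v u D) := by
      exact_mod_cast Submodule.finrank_mono h3
    exact h4.trans (hpoly u v hu hv D)
  · have h1 := Pool.Agent.X148.TR.ncard_pow_le (F := LogForms p L ⊔ Γ) (v := v) (u := u) N
    have h2 : (Set.ncard {n : ℕ | n ≤ N ∧ v * u ^ n ∈ LogForms p L ⊔ Γ} : ℝ) ≤
        finrank (Qb p) (Pool.Agent.X148.TR.PolyIn (LogForms p L ⊔ Γ) v u N) := by
      exact_mod_cast h1
    exact h2.trans (hpoly u v hu hv N)

end Pool.Agent.Results.MP_dd0d16_nt.UnknownConstants
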